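import Pool.Agent.T2H35.MZ.Field
import Pool.Agent.T2H35.MZ.Rev

/-!
# The growth of the dimensions of the spaces of multiple zeta values

Let `Z n` be the `ℚ`-span of the multiple zeta values of weight `n`, `dimZ n` its dimension and `k` the
field generated by the ratios `x / y` of elements `x`, `y` of the same `Z w` (`ratioField`).

1. `dimZ n ≤ dimZ (n + m)` for `m ≥ 2`, and `dimZ n` converges to the degree of `k` over `ℚ` (finite
or infinite): `dimZ n ≤ [k : ℚ]` for all `n`, and `dimZ n ≥ d` for all large `n`, if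
`d ≤ [k : ℚ]`.

2. Gap theorem: either every element of every `Z w` is the product of `π ^ w` and an algebraic number,
or there is `c > 0` with `dimZ n ≥ c n` for all `n ≥ 2`. In the first case the sum of all the `Z n` is
direct. So the second half of Q1 (the directness) holds, or the dimensions grow at least linearly.

3. Quantitative form: if `dimZ n ≤ n / (2 w)` for one even `n`, then for all elements `z` of
`Z w` the number `(z / π ^ w) ^ 2` is algebraic of degree at most `dimZ n`. For example, if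
`dimZ 6 = 1`, then `ζ(3) ^ 2 / π ^ 6` is rational.

4. If there are `m + 1` algebraically independent elements of the spaces `Z w`, then
`dimZ n ≥ c n ^ m` for some `c > 0` and all `n ≥ 2`.
-/

set_option autoImplicit false

open Filter Module Polynomial

namespace Pool.Agent.Results.MP_2000e9_nt.DimensionGap

/-- the `ℚ`-span of the multiple zeta values
`ζ(n_1, …, n_r) = ∑_{0 < k_1 < ⋯ < k_r} k_1^(-n_1) ⋯ k_r^(-n_r)` (`n_i ≥ 1`, `n_r ≥ 2`) of weight `N`;
for `r = 0` the value is `1` and the weight `0` -/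
noncomputable def Z (N : ℕ) : Submodule ℚ ℝ :=
  Submodule.span ℚ
    {x : ℝ | ∃ r : ℕ, ∃ n : Fin r → ℕ,
      (∀ i, 1 ≤ n i) ∧ (∀ h : 0 < r, 2 ≤ n ⟨r - 1, Nat.sub_lt h one_pos⟩) ∧ (∑ i, n i) = N ∧
      x = ∑' k : {k : Fin r → ℕ // StrictMono k ∧ ∀ i, 1 ≤ k i},
            ∏ i, (((k.1 i : ℕ) : ℝ) ^ (n i))⁻¹}

/-- The dimension of the space of weight `n`. -/
noncomputable def dimZ (n : ℕ) : ℕ := finrank ℚ (Z n)

/-- The field generated by the ratios of elements of equal weight. -/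
noncomputable def ratioField : Subfield ℝ :=
  Subfield.closure {r | ∃ w, ∃ x ∈ Z w, ∃ y ∈ Z w, r = x / y}

/-- The sum `Z_0 + ... + Z_p` is direct. -/
def IsDirect (p : ℕ) : Prop :=
  ∀ z : ℕ → ℝ, (∀ j ≤ p, z j ∈ Z j) → (∑ j ∈ Finset.range (p + 1), z j) = 0 → ∀ j ≤ p, z j = 0

theorem Z_eq : Z = Pool.Agent.H447R2.MZ.Zs := funext Pool.Agent.T2H35.MZ.rev_eq

/-- The theorem, see the beginning of the file. -/
theorem result :
    -- 0
    (∀ n, FiniteDimensional ℚ (Z n)) ∧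
    -- 1
    ((∀ n m, 2 ≤ m → dimZ n ≤ dimZ (n + m)) ∧
      (∀ n, (dimZ n : Cardinal) ≤ Module.rank ℚ ratioField) ∧
      ∀ d : ℕ, (d : Cardinal) ≤ Module.rank ℚ ratioField → ∀ᶠ n in atTop, d ≤ dimZ n) ∧
    -- 2
    (((∀ w, ∀ z ∈ Z w, IsAlgebraic ℚ (z / Real.pi ^ w)) ∧ ∀ p, IsDirect p) ∨
      ∃ c : ℝ, 0 < c ∧ ∀ n : ℕ, 2 ≤ n → c * n ≤ dimZ n) ∧
    -- 3
    (∀ n w : ℕ, Even n → 2 * w * dimZ n ≤ n → ∀ z ∈ Z w, ∃ P : ℚ[X], P ≠ 0 ∧
      P.natDegree ≤ dimZ n ∧ aeval ((z / Real.pi ^ w) ^ 2) P = 0) ∧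
    -- 4
    ∀ (m : ℕ) (z : Fin (m + 1) → ℝ), (∀ i, ∃ w, z i ∈ Z w) → AlgebraicIndependent ℚ z →
      ∃ c : ℝ, 0 < c ∧ ∀ n : ℕ, 2 ≤ n → c * (n : ℝ) ^ m ≤ dimZ n := by
  unfold dimZ ratioField IsDirect
  rw [Z_eq]
  refine ⟨fun n => Pool.Agent.T2H35.MZ.finite_Zs n,
    ⟨fun n m hm => Pool.Agent.T2H35.MZ.D_mono hm, fun n => Pool.Agent.T2H35.MZ.D_le_rank n,
      fun d hd => Pool.Agent.T2H35.MZ.exists_D_ge hd⟩, Pool.Agent.T2H35.MZ.gap,
    fun n w hn h z hz => Pool.Agent.T2H35.MZ.alg_of_D_le hn h hz,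
    fun m z hw hz => Pool.Agent.T2H35.MZ.D_growth hz hw⟩

end Pool.Agent.Results.MP_2000e9_nt.DimensionGap
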