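import Pool.Agent.T2H64.ZL.Main

/-!
# The dimension of the sum of the spaces of multiple zeta values of weight at most `N`, divided by `N`, converges

Let `Z N` be the `ℚ`-span of the multiple zeta values of weight `N` (`Z 0 = ℚ`, `Z 1 = 0`), `ZA A` the sum of the
spaces `Z a`, `a ∈ A`, and `s(N) = dim (Z 0 + ... + Z N)`. Let `K0 = ℚ(π²)`, and let `F` be the field generated by
all multiple zeta values.

Theorem (unconditional). `s(N) / N` converges to a limit `L` in `[2/3, ∞]`, and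

1. `s(N) ≤ (N + 2) L` for every `N`;
2. the degree of `F` over `ℚ(π²)` is at most `2 L`; in particular, if `L` is finite, then all multiple zeta values
are algebraic over `ℚ(π²)`; if `L < 1`, then they are all in `ℚ(π²)`;
3. `dim (ZA A) + dim (ZA B) ≤ dim (ZA (A + B)) + 2 L` for all finite sets `A`, `B` of weights which are not
contained in `{1}`;
4. a subspace of some `ZA A` all of whose ratios `a / b` are algebraic numbers has dimension at most `2 L`;
5. if `z` has weight `w`, `d w ≤ N` and `s(N) < ∑_{i ≤ d} (⌊(N - i w) / 2⌋ + 1)`, then `z` is a zero of a nonzero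
polynomial of degree at most `d` over `ℚ(π²)`; this is so for `d = ⌊N / w⌋` if `4 w s(N) < N²`.

(Zagier's conjecture implies that `L = ∞`.)

Proof. Let `S N = Z 0 + ... + Z N`. If `V ⊆ S M` has only algebraic ratios, then
`V + π² V + ... + π^(2 t) V ⊆ S (M + 2 t)` is a direct sum, because `π` is transcendental, and so
`(t + 1) dim V ≤ s(M + 2 t)`. If these dimensions are unbounded, then `s(N) / N` tends to infinity. Otherwise let
`h` be the greatest of them; a linear Cauchy-Davenport inequality gives `s(M) + s(N) ≤ s(M + N) + h`, and `s(N) / N`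
converges to a limit, which is at least `h / 2`. The same argument with linearly independent elements over `ℚ(π²)`
in place of `V` gives the bound for the degree of `F`.
-/

set_option autoImplicit false

open Filter Topology Module
open scoped Pointwise

namespace Pool.Agent.Results.MP_2000e9_nt.LimitOfSums

/-- The `ℚ`-span of the multiple zeta values of weight `N`, written as in the frozen statement `S16267`. -/
noncomputable def Z (N : ℕ) : Submodule ℚ ℝ :=
  Submodule.span ℚ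
    {x : ℝ | ∃ r : ℕ, ∃ k : Fin r → ℕ, (∀ i, 1 ≤ k i) ∧ (∀ h : 0 < r, 2 ≤ k ⟨0, h⟩) ∧
      (∑ i, k i) = N ∧
      x = ∑' n : {n : Fin r → ℕ // StrictAnti n ∧ ∀ i, 1 ≤ n i},
            ∏ i, (1 / (n.1 i : ℝ)) ^ (k i)}

/-- The sum of the spaces `Z a` over the weights `a` in `A`. -/
noncomputable def ZA (A : Finset ℕ) : Submodule ℚ ℝ := ⨆ a ∈ A, Z a

/-- The dimension of `Z 0 + ... + Z N`. -/
noncomputable def s (N : ℕ) : ℕ := finrank ℚ (ZA (Finset.range (N + 1)))

/-- The field `ℚ(π²)`. -/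
noncomputable def K0 : IntermediateField ℚ ℝ := IntermediateField.adjoin ℚ {Real.pi ^ 2}

/-- The field generated by all multiple zeta values (it contains `π²`), as an extension of `ℚ(π²)`. -/
noncomputable def F : IntermediateField K0 ℝ := IntermediateField.adjoin K0 {z : ℝ | ∃ w, z ∈ Z w}

theorem Z_eq : Z = Pool.Agent.H447R2.MZ.Zs := by
  funext N
  unfold Z Pool.Agent.H447R2.MZ.Zs
  simp only [one_div, inv_pow]

/-- The theorem, see the beginning of the file. -/
theorem result :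
    (∀ A, FiniteDimensional ℚ (ZA A)) ∧
    (∃ L : ENNReal, Tendsto (fun N : ℕ => (s N : ENNReal) / N) atTop (𝓝 L) ∧ 2 / 3 ≤ L ∧
      -- 1
      (∀ N : ℕ, (s N : ENNReal) ≤ (N + 2) * L) ∧
      -- 2
      (L ≠ ⊤ → FiniteDimensional K0 F ∧ (finrank K0 F : ENNReal) ≤ 2 * L) ∧
      (L < 1 → ∀ w, ∀ z ∈ Z w, z ∈ K0) ∧
      -- 3
      (∀ A B : Finset ℕ, (∃ a ∈ A, a ≠ 1) → (∃ b ∈ B, b ≠ 1) →
        (finrank ℚ (ZA A) : ENNReal) + finrank ℚ (ZA B) ≤ finrank ℚ (ZA (A + B)) + 2 * L) ∧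
      -- 4
      (∀ (A : Finset ℕ) (V : Submodule ℚ ℝ), V ≤ ZA A →
        (∀ a ∈ V, ∀ b ∈ V, IsAlgebraic ℚ (a / b)) → (finrank ℚ V : ENNReal) ≤ 2 * L)) ∧
    -- 5
    (∀ w N : ℕ, ∀ z ∈ Z w,
      (∀ d : ℕ, d * w ≤ N → s N < ∑ i ∈ Finset.range (d + 1), ((N - i * w) / 2 + 1) →
        ∃ P : Polynomial K0, P ≠ 0 ∧ P.natDegree ≤ d ∧ Polynomial.aeval z P = 0) ∧
      (0 < w → 4 * w * s N < N ^ 2 →
        ∃ P : Polynomial K0, P ≠ 0 ∧ P.natDegree ≤ N / w ∧ Polynomial.aeval z P = 0)) := by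
  unfold F
  unfold s ZA K0
  rw [Z_eq]
  refine ⟨fun A => Pool.Agent.T2H64.ZL.finite_SA A, ?_, fun w N z hz => ⟨fun d hd hlt => ?_, fun hw hlt => ?_⟩⟩
  · obtain ⟨L, hL, hV⟩ := Pool.Agent.T2H64.ZL.filt.limit
    refine ⟨L, hL, Pool.Agent.T2H64.ZL.two_thirds hL, ?_, ?_, ?_, ?_, ?_⟩
    · exact Pool.Agent.T2H64.ZL.upper hL (Pool.Agent.T2H64.ZL.add_le hV)
    · intro hT
      exact Pool.Agent.T2H64.ZL.filt.degree hL hT Pool.Agent.T2H64.ZL.Hom (fun z hz => by
        obtain ⟨w, hw⟩ := hz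
        exact ⟨w, Pool.Agent.T2H64.ZL.Zs_le_S w hw⟩)
    · intro h1 w z hz
      exact Pool.Agent.T2H64.ZL.rational_of_lt hL h1 hz
    · intro A B hA hB
      exact Pool.Agent.T2H64.ZL.sumset hV hA hB
    · intro A V hVA hr
      exact hV (A.sup id) V (hVA.trans (Pool.Agent.T2H64.ZL.SA_le fun _ ha =>
        Finset.le_sup (f := id) ha)) hr
  · exact Pool.Agent.T2H64.ZL.filt.quant (Pool.Agent.T2H64.ZL.Zs_le_S w hz) hd hlt
  · exact Pool.Agent.T2H64.ZL.dichotomy hz hw hlt

end Pool.Agent.Results.MP_2000e9_nt.LimitOfSums
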