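import Pool.Agent.T2H51.RZ.Dim

/-!
# Multiple zeta values of randomly perturbed integers: dimensions and grading

For a sequence `x` and a list `l = [a_1, ..., a_t]` let `V x l 0` be the sum of `x_{n_1}^{a_1} ... x_{n_t}^{a_t}` over
`0 ≤ n_1 < ... < n_t`, so that `x_n = 1/(n+1)` gives the multiple zeta value `ζ(a_1, ..., a_t)` (`a_t ≥ 2`) of the
problem. `Z x N` is the rational span of the values of weight `N`.

Replace the positive integers `n + 1`, `n` in an arbitrary infinite set `R` (as sparse as we like), by `n + 1 + ξ_n` with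
independent random `ξ_n`, `0 < ξ_n < h_n` (as small as we like), whose laws have no atoms, and keep all the other
integers. Then, almost surely, the sum of the spaces `Z x N` is direct, as in Q1, but their dimensions are `2^(N-2)`
(`N ≥ 2`) instead of the numbers `d_N` (`d_N = d_{N-2} + d_{N-3}`) of Q1. So all the linear relations among multiple zeta
values of equal weight are destroyed, already by sparse and small perturbations (the products are still given by the
stuffle formula), and the upper bound `dim Z_N ≤ d_N` is a property of the exact integers, while the grading is stable.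
-/

set_option autoImplicit false

open MeasureTheory ProbabilityTheory Finset
open Pool.Agent.T2H51.RZ

namespace Pool.Agent.Results.MP_2000e9_nt.RandomIntegersDimensions

/-- For independent random variables `X n` with `|X n| ≤ A/(n+1)`, `X n` without atoms for `n` in an infinite set `R` and
constant for the other `n`: almost surely the weight spaces of the multiple zeta values of the sequence have the
dimensions `1, 0` and `2^N` (weight `N + 2`), and their sum is direct. Such `X` exist with `X n = 1/(n+1+ξ_n)`,
`0 < ξ_n < h n`, `n ∈ R`, `X n = 1/(n+1)`, `n ∉ R`, for all infinite `R` and all positive `h`. -/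
theorem result :
    (∀ (A : ℝ), 1 ≤ A → ∀ (Ω : Type) [MeasurableSpace Ω] (P : Measure Ω) [IsProbabilityMeasure P] (R : Set ℕ)
      (X : ℕ → Ω → ℝ), Model P A R X →
      ∀ᵐ ω ∂P, Module.finrank ℚ (Z (fun n => X n ω) 0) = 1 ∧ Module.finrank ℚ (Z (fun n => X n ω) 1) = 0 ∧
        (∀ N : ℕ, Module.finrank ℚ (Z (fun n => X n ω) (N + 2)) = 2 ^ N) ∧
        iSupIndep (Z (fun n => X n ω))) ∧
    ∀ (R : Set ℕ) (h : ℕ → ℝ), R.Infinite → (∀ n, 0 < h n) →
      ∃ (Ω : Type) (_ : MeasurableSpace Ω) (P : Measure Ω) (_ : IsProbabilityMeasure P) (X : ℕ → Ω → ℝ),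
        Model P 1 R X ∧ (∀ n ∈ R, ∀ ω, ∃ ξ : ℝ, 0 < ξ ∧ ξ < h n ∧ X n ω = 1 / ((n : ℝ) + 1 + ξ)) ∧
        ∀ n, n ∉ R → ∀ ω, X n ω = 1 / ((n : ℝ) + 1) := by
  refine ⟨?_, fun R h hR hh => exists_model R hR h hh⟩
  intro A hA Ω _ P _ R X hX
  have hc := countable_bot
  filter_upwards [linInd hA R X hX ⊥] with ω hω
  have h1 := toRat hω
  refine ⟨?_, ?_, fun N => ?_, indep_Z h1⟩
  · rw [finrank_Z h1 0 (by rw [cnt_zero]; exact Set.finite_singleton _), cnt_zero, Set.ncard_singleton]
  · rw [finrank_Z h1 1 (by rw [cnt_one]; exact Set.finite_empty), cnt_one, Set.ncard_empty]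
  · rw [finrank_Z h1 (N + 2) (cnt_card N).1, (cnt_card N).2]

end Pool.Agent.Results.MP_2000e9_nt.RandomIntegersDimensions
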