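import Pool.Agent.T2H06.ZS.Main

/-!
# The dimensions of the spaces of multiple zeta values are superadditive up to a constant

Let `Z N` be the `ℚ`-span of the multiple zeta values of weight `N` (`Z 0 = ℚ`, `Z 1 = 0`), `D(N) = dim Z N`, and
let `k` be the field generated by the ratios `x / y` of elements of the same `Z N` (`ratioField`).

Theorem (unconditional).

1. Let `M, N ≠ 1`, and let `h` be such that every subspace of `Z M` all of whose ratios `a / b` are algebraic
numbers has dimension at most `h`. Then `D(M + N) ≥ D(M) + D(N) - h`.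

2. Let the algebraic numbers in `k` form a number field, of degree `h`. Then `D(M + N) ≥ D(M) + D(N) - h` for all
`M, N ≠ 1`, and `D(N) / N` converges to a limit in `[0, ∞]`, which is `0` only if `k` is a number field (and so
`D(N)` is bounded).

For example, if no irrational algebraic number is a ratio of multiple zeta values of equal weight (this is a
consequence of Q1 in its usual algebraic form), then `D(M + N) ≥ D(M) + D(N) - 1`. For every `M`: either two
linearly independent elements of `Z M` have an algebraic ratio, or `D(M + N) ≥ D(M) + D(N) - 1` for all `N ≥ 2`,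
and so `D(N) ≥ 1 + ⌊(N - 2) / M⌋ (D(M) - 1)` for all `N ≥ 2`.

Proof. `Z M * Z N ⊆ Z (M + N)`, and a linear version of the Cauchy-Davenport inequality: for
finite dimensional nonzero subspaces `A`, `B` of a field `L` over `K`, and `e ≠ 0`, put `A' = A ∩ e B`,
`B' = B + e⁻¹ A`. Then `A' B' ⊆ A B` and `dim A' + dim B' = dim A + dim B`. If `A'` is `0` or `A` for all `e`, then
`(a / b) B ⊆ B` for all `a, b` in `A`, and so all ratios of `A` are algebraic. Induction on the dimension of `A`.
The limit is `sup (D(N) - h) / N`, and `D(N)` tends to the degree of `k` (result `DimensionGap` by helper35).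
-/

set_option autoImplicit false

open Filter Topology Module

namespace Pool.Agent.Results.MP_2000e9_nt.SuperadditiveDimensions

/-- The `ℚ`-span of the multiple zeta values of weight `N`, written as in the frozen statement `S16267`. -/
noncomputable def Z (N : ℕ) : Submodule ℚ ℝ :=
  Submodule.span ℚ
    {x : ℝ | ∃ r : ℕ, ∃ k : Fin r → ℕ, (∀ i, 1 ≤ k i) ∧ (∀ h : 0 < r, 2 ≤ k ⟨0, h⟩) ∧
      (∑ i, k i) = N ∧
      x = ∑' n : {n : Fin r → ℕ // StrictAnti n ∧ ∀ i, 1 ≤ n i},
            ∏ i, (1 / (n.1 i : ℝ)) ^ (k i)}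

/-- The dimension of the space of weight `N`. -/
noncomputable def dimZ (N : ℕ) : ℕ := finrank ℚ (Z N)

/-- The field generated by the ratios of elements of equal weight. -/
noncomputable def ratioField : Subfield ℝ :=
  Subfield.closure {r | ∃ w, ∃ x ∈ Z w, ∃ y ∈ Z w, r = x / y}

theorem Z_eq : Z = Pool.Agent.H447R2.MZ.Zs := by
  funext N
  unfold Z Pool.Agent.H447R2.MZ.Zs
  simp only [one_div, inv_pow]

/-- The theorem, see the beginning of the file. -/
theorem result :
    (∀ N, FiniteDimensional ℚ (Z N)) ∧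
    -- 1
    (∀ M N h : ℕ, M ≠ 1 → N ≠ 1 →
      (∀ A ≤ Z M, (∀ a ∈ A, ∀ b ∈ A, IsAlgebraic ℚ (a / b)) → finrank ℚ A ≤ h) →
      dimZ M + dimZ N ≤ dimZ (M + N) + h) ∧
    -- 2
    (FiniteDimensional ℚ (algebraicClosure ℚ ratioField) →
      (∀ M N : ℕ, M ≠ 1 → N ≠ 1 →
        dimZ M + dimZ N ≤ dimZ (M + N) + finrank ℚ (algebraicClosure ℚ ratioField)) ∧
      ∃ L : ENNReal, Tendsto (fun N : ℕ => (dimZ N : ENNReal) / N) atTop (𝓝 L) ∧
        (L = 0 ↔ FiniteDimensional ℚ ratioField)) := by
  unfold dimZ ratioField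
  rw [Z_eq]
  refine ⟨fun N => Pool.Agent.T2H35.MZ.finite_Zs N, fun M N h hM hN hh => T2H06.ZS.super hM hN hh,
    fun hfin => ?_⟩
  have : FiniteDimensional ℚ (algebraicClosure ℚ Pool.Agent.Y129.MZ.ratioField) := hfin
  exact ⟨fun M N hM hN => T2H06.ZS.super' hM hN, T2H06.ZS.limit⟩

end Pool.Agent.Results.MP_2000e9_nt.SuperadditiveDimensions
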